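import Pool.Agent.H74.G.R_seed8.W564.SC.Defs3

/-!
# Project SC, part ABS: existence of a closing time
-/

open Filter Set Metric

namespace Pool.Agent.W878.SC

open Pool.Agent.W564.SC Pool.Agent.H718R2.G

/-- the exponents -/
def bb (k c1 : ℕ) : ℕ → ℕ
  | 0 => c1
  | n + 1 => k * (bb k c1 n + 1) + c1

theorem bb_ge (k c1 n : ℕ) : c1 ≤ bb k c1 n := by
  cases n with
  | zero => exact le_rfl
  | succ n => exact Nat.le_add_left _ _

theorem abs (h : S_CHN) : S_ABS := by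
  classical
  intro D k hk
  set c1 : ℕ := 40 * (D + 1) + 5 with hc1
  refine ⟨bb k c1 (D + 1), fun κ hκ hκ16 => ?_⟩
  refine ⟨16 + 2 * (D + 1) + 2 ^ k / κ + (κ * (κ / 2) ^ k)⁻¹ + 1, ?_⟩
  intro m Λ P v A hAC hΛ hmΛ hm hPm hvm
  have hpos1 : 0 < 2 ^ k / κ := by positivity
  have hpos2 : 0 < (κ * (κ / 2) ^ k)⁻¹ := by positivity
  have hD0 : (0 : ℝ) ≤ D := Nat.cast_nonneg D
  have hΛ16 : 16 ≤ Λ := by linarith
  have hΛD : 2 * ((D : ℝ) + 1) ≤ Λ := by linarith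
  have hΛ1 : 2 ^ k / κ < Λ := by linarith
  have hΛ2 : (κ * (κ / 2) ^ k)⁻¹ < Λ := by linarith
  have hΛ0 : 0 < Λ := by linarith
  have hL0 : 0 < Λ⁻¹ := inv_pos.2 hΛ0
  have hL1 : Λ⁻¹ ≤ 1 := inv_le_one_of_one_le₀ (by linarith)
  by_contra hno
  push Not at hno
  -- reformulation of the failure
  have fail : ∀ q : ℤ, 1 ≤ q → q ≤ m → P q → ∀ ρ : ℝ, 0 < ρ → ρ < κ →
      (∀ i : ℤ, 0 < i → i < q → P i → 2 * ρ ≤ ‖v i‖) → κ * ρ ^ k ≤ ‖v q‖ := by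
    intro q h1 h2 h3 ρ h4 h5 h6
    by_contra h7
    obtain ⟨i, hi1, hi2, hi3, hi4⟩ := hno q ρ h1 h2 h3 h4 h5 (not_le.1 h7)
    exact absurd (h6 i hi1 hi2 hi3) (not_le.2 hi4)
  -- nonvanishing and dichotomy
  have dich : ∀ q : ℤ, 1 ≤ q → q ≤ m → P q → (∀ i : ℤ, 0 < i → i < q → P i → 0 < ‖v i‖) →
      κ * (κ / 2) ^ k ≤ ‖v q‖ ∨ ∃ j : ℤ, 0 < j ∧ j < q ∧ P j ∧ 0 < ‖v j‖ ∧
        κ * (‖v j‖ / 2) ^ k ≤ ‖v q‖ := by
    intro q h1 h2 h3 hnz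
    set S : Finset ℤ := (Finset.Ioo 0 q).filter P with hS
    by_cases hne : S.Nonempty
    · obtain ⟨i0, hi0, hmin⟩ := Finset.exists_min_image S (fun i => ‖v i‖) hne
      have hi0' := Finset.mem_filter.1 hi0
      have hi0I := Finset.mem_Ioo.1 hi0'.1
      have hv0 : 0 < ‖v i0‖ := hnz i0 hi0I.1 hi0I.2 hi0'.2
      have hρ := fail q h1 h2 h3 (min (κ / 2) (‖v i0‖ / 2)) (lt_min (by linarith) (by linarith))
        (lt_of_le_of_lt (min_le_left _ _) (by linarith)) (by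
          intro i hi1 hi2 hi3
          have h4 : ‖v i0‖ ≤ ‖v i‖ :=
            hmin i (Finset.mem_filter.2 ⟨Finset.mem_Ioo.2 ⟨hi1, hi2⟩, hi3⟩)
          have h5 := min_le_right (κ / 2) (‖v i0‖ / 2)
          linarith)
      rcases min_choice (κ / 2) (‖v i0‖ / 2) with h6 | h6
      · left; rwa [h6] at hρ
      · right; rw [h6] at hρ
        exact ⟨i0, hi0I.1, hi0I.2, hi0'.2, hv0, hρ⟩
    · left
      refine fail q h1 h2 h3 (κ / 2) (by linarith) (by linarith) ?_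
      intro i hi1 hi2 hi3
      exact absurd ⟨i, Finset.mem_filter.2 ⟨Finset.mem_Ioo.2 ⟨hi1, hi2⟩, hi3⟩⟩ hne
  have nzN : ∀ n : ℕ, 1 ≤ n → n ≤ m → P n → 0 < ‖v n‖ := by
    intro n
    induction n using Nat.strong_induction_on with
    | _ n ih =>
      intro h1 h2 h3
      have hprev : ∀ i : ℤ, 0 < i → i < n → P i → 0 < ‖v i‖ := by
        intro i hi1 hi2 hi3
        lift i to ℕ using hi1.le
        exact ih i (by exact_mod_cast hi2) (by exact_mod_cast hi1)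
          (le_trans (by exact_mod_cast hi2.le) h2) hi3
      rcases dich n (by exact_mod_cast h1) (by exact_mod_cast h2) h3 hprev with h4 | ⟨j, _, _, _, hj, h4⟩
      · exact lt_of_lt_of_le (by positivity) h4
      · exact lt_of_lt_of_le (by positivity) h4
  have nz : ∀ i : ℤ, 0 < i → i ≤ m → P i → 0 < ‖v i‖ := by
    intro i hi1 hi2 hi3
    lift i to ℕ using hi1.le
    exact nzN i (by exact_mod_cast hi1) (by exact_mod_cast hi2) hi3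
  -- the step
  have step : ∀ (n : ℕ) (x : ℤ), (0 < x ∧ x ≤ m ∧ P x ∧ ‖v x‖ ≤ Λ⁻¹ ^ bb k c1 (n + 1)) →
      ∃ y : ℤ, (0 < y ∧ y ≤ m ∧ P y ∧ ‖v y‖ ≤ Λ⁻¹ ^ bb k c1 n) ∧ y < x ∧
        ‖v x‖ ≤ Λ⁻¹ ^ c1 * ‖v y‖ := by
    rintro n x ⟨hx0, hxm, hPx, hvx⟩
    have hΛc : 1 ≤ Λ ^ c1 := one_le_pow₀ (by linarith)
    have hcancel : Λ⁻¹ ^ c1 * Λ ^ c1 = 1 := by
      rw [← mul_pow, inv_mul_cancel₀ hΛ0.ne', one_pow]
    set S : Finset ℤ := (Finset.Icc 1 x).filter (fun j => P j ∧ ‖v j‖ ≤ Λ ^ c1 * ‖v x‖) with hS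
    have hxS : x ∈ S := by
      refine Finset.mem_filter.2 ⟨Finset.mem_Icc.2 ⟨hx0, le_rfl⟩, hPx, ?_⟩
      calc ‖v x‖ = 1 * ‖v x‖ := (one_mul _).symm
        _ ≤ Λ ^ c1 * ‖v x‖ := mul_le_mul_of_nonneg_right hΛc (norm_nonneg _)
    obtain ⟨q, hqS, hqmin⟩ := Finset.exists_min_image S id ⟨x, hxS⟩
    have hq' := Finset.mem_filter.1 hqS
    have hqI := Finset.mem_Icc.1 hq'.1
    have hqm : q ≤ m := hqI.2.trans hxm
    -- size of v q
    have hvq : ‖v q‖ ≤ Λ⁻¹ ^ (k * (bb k c1 n + 1)) := by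
      calc ‖v q‖ ≤ Λ ^ c1 * ‖v x‖ := hq'.2.2
        _ ≤ Λ ^ c1 * Λ⁻¹ ^ bb k c1 (n + 1) :=
          mul_le_mul_of_nonneg_left hvx (by positivity)
        _ = Λ⁻¹ ^ (k * (bb k c1 n + 1)) := by
          show Λ ^ c1 * Λ⁻¹ ^ (k * (bb k c1 n + 1) + c1) = _
          rw [pow_add Λ⁻¹ (k * (bb k c1 n + 1)) c1]
          calc Λ ^ c1 * (Λ⁻¹ ^ (k * (bb k c1 n + 1)) * Λ⁻¹ ^ c1)
              = Λ⁻¹ ^ (k * (bb k c1 n + 1)) * (Λ⁻¹ ^ c1 * Λ ^ c1) := by ring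
            _ = _ := by rw [hcancel, mul_one]
    rcases dich q hqI.1 hqm hq'.2.1
        (fun i hi1 hi2 hi3 => nz i hi1 (hi2.le.trans hqm) hi3) with h1 | ⟨j, hj0, hjq, hPj, hvj, h1⟩
    · exfalso
      have h2 : Λ⁻¹ ^ (k * (bb k c1 n + 1)) ≤ Λ⁻¹ ^ 1 :=
        pow_le_pow_of_le_one hL0.le hL1 (Nat.mul_pos hk (Nat.succ_pos _))
      rw [pow_one] at h2
      have h3 : κ * (κ / 2) ^ k ≤ Λ⁻¹ := h1.trans (hvq.trans h2)
      have h4 : Λ ≤ (κ * (κ / 2) ^ k)⁻¹ := by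
        rw [le_inv_comm₀ hΛ0 (by positivity)]
        exact h3
      linarith
    · have hjm : j ≤ m := hjq.le.trans hqm
      have hjx : ‖v x‖ ≤ Λ⁻¹ ^ c1 * ‖v j‖ := by
        have h2 : Λ ^ c1 * ‖v x‖ < ‖v j‖ := by
          by_contra h3
          have hjS : j ∈ S := Finset.mem_filter.2 ⟨Finset.mem_Icc.2 ⟨hj0, hjq.le.trans hqI.2⟩,
            hPj, not_lt.1 h3⟩
          exact absurd (hqmin j hjS) (not_le.2 hjq)
        calc ‖v x‖ = (Λ⁻¹ ^ c1 * Λ ^ c1) * ‖v x‖ := by rw [hcancel, one_mul]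
          _ = Λ⁻¹ ^ c1 * (Λ ^ c1 * ‖v x‖) := by ring
          _ ≤ Λ⁻¹ ^ c1 * ‖v j‖ := mul_le_mul_of_nonneg_left h2.le (by positivity)
      refine ⟨j, ⟨hj0, hjm, hPj, ?_⟩, lt_of_lt_of_le hjq hqI.2, hjx⟩
      by_contra h2
      have h2' : Λ⁻¹ ^ bb k c1 n < ‖v j‖ := not_le.1 h2
      have h3 : κ * (Λ⁻¹ ^ bb k c1 n / 2) ^ k ≤ Λ⁻¹ ^ (k * (bb k c1 n + 1)) := by
        refine le_trans ?_ (h1.trans hvq)
        refine mul_le_mul_of_nonneg_left ?_ hκ.le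
        exact pow_le_pow_left₀ (by positivity) (by linarith) k
      set X : ℝ := Λ⁻¹ ^ bb k c1 n with hX
      have hX0 : 0 < X := by positivity
      have h4 : Λ⁻¹ ^ (k * (bb k c1 n + 1)) = X ^ k * Λ⁻¹ ^ k := by
        rw [hX, ← mul_pow, ← pow_succ, ← pow_mul, mul_comm k]
      rw [h4, div_pow] at h3
      have h5 : κ / 2 ^ k ≤ Λ⁻¹ ^ k := by
        have h6 : (κ / 2 ^ k) * X ^ k ≤ Λ⁻¹ ^ k * X ^ k := by
          calc (κ / 2 ^ k) * X ^ k = κ * (X ^ k / 2 ^ k) := by ring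
            _ ≤ X ^ k * Λ⁻¹ ^ k := h3
            _ = Λ⁻¹ ^ k * X ^ k := by ring
        exact le_of_mul_le_mul_right h6 (by positivity)
      have h6 : Λ⁻¹ ^ k ≤ Λ⁻¹ := by
        calc Λ⁻¹ ^ k ≤ Λ⁻¹ ^ 1 := pow_le_pow_of_le_one hL0.le hL1 hk
          _ = Λ⁻¹ := pow_one _
      have h7 : Λ ≤ 2 ^ k / κ := by
        have h8 : κ / 2 ^ k ≤ Λ⁻¹ := h5.trans h6
        have h9 : Λ ≤ (κ / 2 ^ k)⁻¹ := by
          rw [le_inv_comm₀ hΛ0 (by positivity)]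
          exact h8
        rwa [inv_div] at h9
      linarith
  -- the chain
  choose! f hf1 hf2 hf3 using step
  let p : ℕ → ℤ := fun i => Nat.rec (m : ℤ) (fun i x => f (D - i) x) i
  have hp0 : p 0 = m := rfl
  have hps : ∀ i, p (i + 1) = f (D - i) (p i) := fun i => rfl
  have good : ∀ i, i ≤ D + 1 →
      0 < p i ∧ p i ≤ m ∧ P (p i) ∧ ‖v (p i)‖ ≤ Λ⁻¹ ^ bb k c1 (D + 1 - i) := by
    intro i
    induction i with
    | zero =>
      intro _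
      rw [hp0]
      exact ⟨by exact_mod_cast hm, le_rfl, hPm, hvm⟩
    | succ i ih =>
      intro hi
      have h1 := ih (by omega)
      have e1 : D + 1 - i = D - i + 1 := by omega
      have e2 : D + 1 - (i + 1) = D - i := by omega
      rw [e1] at h1
      rw [hps, e2]
      exact hf1 (D - i) (p i) h1
  have nxt : ∀ i, i ≤ D → p (i + 1) < p i ∧ ‖v (p i)‖ ≤ Λ⁻¹ ^ c1 * ‖v (p (i + 1))‖ := by
    intro i hi
    have h1 := good i (by omega)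
    have e1 : D + 1 - i = D - i + 1 := by omega
    rw [e1] at h1
    rw [hps]
    exact ⟨hf2 (D - i) (p i) h1, hf3 (D - i) (p i) h1⟩
  have hc : Λ⁻¹ ^ c1 ≤ 1 := pow_le_one₀ hL0.le hL1
  have pair : ∀ i j, i < j → j ≤ D + 1 → p j < p i ∧ ‖v (p i)‖ ≤ Λ⁻¹ ^ c1 * ‖v (p j)‖ := by
    intro i j hij
    induction j with
    | zero => omega
    | succ j ih =>
      intro hj
      rcases Nat.lt_succ_iff_lt_or_eq.1 hij with h1 | rfl
      · obtain ⟨h2, h3⟩ := ih h1 (by omega)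
        obtain ⟨h4, h5⟩ := nxt j (by omega)
        refine ⟨h4.trans h2, h3.trans (mul_le_mul_of_nonneg_left ?_ (by positivity))⟩
        exact h5.trans (mul_le_of_le_one_left (norm_nonneg _) hc)
      · exact nxt i (by omega)
  refine h D m Λ P v A hAC hΛ16 hΛD hmΛ (fun i : Fin (D + 2) => p i) ?_ ?_ ?_ ?_ ?_
  · intro i
    obtain ⟨h1, h2, h3, _⟩ := good i (by omega)
    exact ⟨h1, h2, h3⟩
  · intro i j hij
    exact (pair i j hij (by omega)).1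
  · show 0 < ‖v (p 0)‖
    rw [hp0]
    exact nz m (by exact_mod_cast hm) le_rfl hPm
  · intro i j hij
    exact (pair i j hij (by omega)).2
  · intro i
    obtain ⟨_, _, _, h4⟩ := good i (by omega)
    exact h4.trans (pow_le_pow_of_le_one hL0.le hL1 (bb_ge _ _ _))

end Pool.Agent.W878.SC
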